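import Pool.Agent.Helper57.SI.Stmts

set_option autoImplicit false

namespace Pool.Agent.Helper93.SI

open Pool.Agent.Helper57.QZ (Pr)

theorem fr_log {A B : ℕ} {N : ℝ} (hA : 1 ≤ A) (hB : 1 ≤ B) (h : A ≠ B) (hAN : (A : ℝ) ≤ N)
    (hBN : (B : ℝ) ≤ N) : 1 / N ≤ |Real.log A - Real.log B| := by
  wlog hlt : B < A generalizing A B
  · have := this hB hA h.symm hBN hAN (by omega)
    rwa [abs_sub_comm]
  have hA0 : (0 : ℝ) < A := by exact_mod_cast hA
  have hB0 : (0 : ℝ) < B := by exact_mod_cast hB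
  have h1 : (B : ℝ) + 1 ≤ A := by exact_mod_cast hlt
  have h2 : Real.log A - Real.log B = -Real.log (B / A) := by
    rw [Real.log_div hB0.ne' hA0.ne']
    ring
  have h3 : Real.log (B / A) ≤ B / A - 1 := Real.log_le_sub_one_of_pos (by positivity)
  have h4 : 1 / (A : ℝ) ≤ 1 - B / A := by
    rw [le_sub_iff_add_le, ← add_div, div_le_one hA0]
    linarith
  have h5 : 1 / N ≤ 1 / (A : ℝ) := one_div_le_one_div_of_le hA0 hAN
  rw [h2]
  linarith [le_abs_self (-Real.log ((B : ℝ) / A))]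

theorem fr_prime {z : ℕ} (p : Pr z) : (p : ℕ).Prime := Nat.prime_of_mem_primesBelow p.2

theorem fr_fact {z : ℕ} (a : Pr z → ℕ) (q : Pr z) :
    (∏ p : Pr z, (p : ℕ) ^ a p).factorization (q : ℕ) = a q := by
  classical
  rw [Nat.factorization_prod_apply (fun p _ => pow_ne_zero _ (fr_prime p).ne_zero)]
  rw [Finset.sum_eq_single q]
  · rw [(fr_prime q).factorization_pow, Finsupp.single_eq_same]
  · intro p _ hp
    rw [(fr_prime p).factorization_pow, Finsupp.single_apply, if_neg]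
    intro h
    exact hp (Subtype.ext h)
  · intro h
    exact absurd (Finset.mem_univ q) h

theorem fr_le {z K : ℕ} (a : Pr z → ℕ) (ha : ∀ p, a p ≤ K) :
    ∏ p : Pr z, (p : ℕ) ^ a p ≤ 4 ^ (K * z) := by
  calc ∏ p : Pr z, (p : ℕ) ^ a p ≤ ∏ p : Pr z, (p : ℕ) ^ K :=
        Finset.prod_le_prod' fun p _ => Nat.pow_le_pow_right (fr_prime p).pos (ha p)
    _ = (∏ p : Pr z, (p : ℕ)) ^ K := Finset.prod_pow _ _ _
    _ = (primorial z) ^ K := by
        congr 1
        exact Finset.prod_coe_sort (Nat.primesBelow (z + 1)) (fun p => p)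
    _ ≤ (4 ^ z) ^ K := Nat.pow_le_pow_left (primorial_le_four_pow z) K
    _ = 4 ^ (K * z) := by rw [← pow_mul, mul_comm]

theorem st_FR : Pool.Agent.Helper57.SI.ST_FR := by
  classical
  intro z K k hk hk0
  have hex : ∃ q, k q ≠ 0 := by
    by_contra h
    push Not at h
    exact hk0 (funext h)
  obtain ⟨q, hq⟩ := hex
  set a : Pr z → ℕ := fun p => (k p).toNat with ha
  set b : Pr z → ℕ := fun p => (-k p).toNat with hb
  have hab : ∀ p, k p = (a p : ℤ) - (b p : ℤ) := by
    intro p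
    simp only [ha, hb]
    omega
  have haK : ∀ p, a p ≤ K := by
    intro p
    have := abs_le.1 (hk p)
    simp only [ha]
    omega
  have hbK : ∀ p, b p ≤ K := by
    intro p
    have := abs_le.1 (hk p)
    simp only [hb]
    omega
  set A : ℕ := ∏ p : Pr z, (p : ℕ) ^ a p with hA
  set B : ℕ := ∏ p : Pr z, (p : ℕ) ^ b p with hB
  have hne : A ≠ B := by
    intro h
    have h1 := fr_fact a q
    have h2 := fr_fact b q
    rw [← hA, h, hB, h2] at h1
    apply hq
    rw [hab q, h1, sub_self]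
  have hA1 : 1 ≤ A := Finset.one_le_prod' fun p _ => Nat.one_le_pow _ _ (fr_prime p).pos
  have hB1 : 1 ≤ B := Finset.one_le_prod' fun p _ => Nat.one_le_pow _ _ (fr_prime p).pos
  have hlog : ∀ c : Pr z → ℕ, Real.log ((∏ p : Pr z, (p : ℕ) ^ c p : ℕ) : ℝ) =
      ∑ p : Pr z, (c p : ℝ) * Real.log ((p : ℕ) : ℝ) := by
    intro c
    rw [Nat.cast_prod, Real.log_prod]
    · apply Finset.sum_congr rfl
      intro p _
      rw [Nat.cast_pow, Real.log_pow]
    · intro p _
      have := (fr_prime p).pos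
      positivity
  have hsum : ∑ p : Pr z, (k p : ℝ) * Real.log ((p : ℕ) : ℝ) = Real.log A - Real.log B := by
    rw [hA, hB, hlog a, hlog b, ← Finset.sum_sub_distrib]
    apply Finset.sum_congr rfl
    intro p _
    rw [hab p]
    push_cast
    ring
  rw [hsum]
  apply fr_log hA1 hB1 hne
  · exact_mod_cast fr_le a haK
  · exact_mod_cast fr_le b hbK

end Pool.Agent.Helper93.SI
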